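import Pool.Agent.TH62.PL.Stms
import Pool.Agent.TH62.PL.Stms2
import Pool.Agent.TH62.PL.Hall
import Pool.Agent.TH62.PL.Rep

set_option autoImplicit false

/-! The case `p = 2` (job 832, project of helper62). -/

namespace Pool.Agent.TH31.J832

open Pool.Agent.TH62.PL
open scoped commutatorElement

section groups
variable {G : Type} [Group G]

/-- in a group `K` containing the Hall subgroup `L`, a `K`-invariant section which is a `π`-group
is covered by `L` -/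
lemma hall_decomp [Finite G] {π : Set ℕ} {L K N R : Subgroup G} (h : IsHall π L) (hLK : L ≤ K)
    (hRK : R ≤ K) (hR : Inv K R) (hN : N.Normal) (hPF : PF π N R) : R ≤ (L ⊓ R) ⊔ N := by
  have hRn : (R.subgroupOf K).Normal := ⟨fun x hx g => by
    rw [Subgroup.mem_subgroupOf] at hx ⊢
    exact hR g g.2 x hx⟩
  have h1 := relIndex_dvd_index (L.subgroupOf K) (R.subgroupOf K) hRn
  rw [Subgroup.relIndex_subgroupOf hRK] at h1
  have h2 : PN πᶜ (L.relIndex R) :=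
    (h.2.of_dvd (Subgroup.relIndex_dvd_index_of_le hLK)).of_dvd h1
  have h3 : Inv R (N ⊓ R) := (Inv.of_normal R hN).inf (Inv.self R)
  have h4 : PF π (N ⊓ R) R := by
    intro x hx
    obtain ⟨m, hm, hm'⟩ := hPF x hx
    exact ⟨m, hm, hm', R.pow_mem hx m⟩
  have h5 : PN πᶜ (((L ⊓ R) ⊔ (N ⊓ R)).relIndex R) := by
    refine h2.of_dvd ?_
    rw [← Subgroup.inf_relIndex_right L R]
    exact Subgroup.relIndex_dvd_of_le_left R le_sup_left
  exact (le_of_PF h3 le_sup_right h4 h5).trans (sup_le_sup_left inf_le_left _)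

/-- the subgroup acting trivially on `Q/Z` -/
lemma normal_N {Q Z N : Subgroup G} (hQ : Q.Normal) (hZ : Z.Normal)
    (hN : ∀ g, g ∈ N ↔ ∀ x ∈ Q, g * x * g⁻¹ * x⁻¹ ∈ Z) : N.Normal := by
  refine ⟨fun n hn g => ?_⟩
  rw [hN] at hn ⊢
  intro x hx
  have h1 := hn (g⁻¹ * x * g) (by simpa using hQ.conj_mem x hx g⁻¹)
  have h2 := hZ.conj_mem _ h1 g
  have e : g * (n * (g⁻¹ * x * g) * n⁻¹ * (g⁻¹ * x * g)⁻¹) * g⁻¹ =
      g * n * g⁻¹ * x * (g * n * g⁻¹)⁻¹ * x⁻¹ := by group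
  rwa [e] at h2

/-- an element centralising `Z` and `Q/Z`, of order prime to `q`, centralises `Q` -/
lemma centralises_of_coprime [Finite G] {q : ℕ} {Q Z : Subgroup G}
    (hZQ : Z ≤ Q) (hpg : IsPGroup q Q) {g : G} (hg : ∀ z ∈ Z, g * z = z * g)
    (hgN : ∀ x ∈ Q, g * x * g⁻¹ * x⁻¹ ∈ Z) (ho : (orderOf g).Coprime q) {x : G} (hx : x ∈ Q) :
    g * x = x * g := by
  set z := g * x * g⁻¹ * x⁻¹ with hz
  have hzZ : z ∈ Z := hgN x hx
  have h1 : ∀ n : ℕ, g ^ n * x * (g ^ n)⁻¹ = z ^ n * x := by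
    intro n
    induction n with
    | zero => simp
    | succ n ih =>
      have hc : g * z ^ n = z ^ n * g := by
        have : Commute g z := hg z hzZ
        exact (this.pow_right n)
      calc g ^ (n + 1) * x * (g ^ (n + 1))⁻¹ = g * (g ^ n * x * (g ^ n)⁻¹) * g⁻¹ := by
            rw [pow_succ']; group
        _ = g * (z ^ n * x) * g⁻¹ := by rw [ih]
        _ = (g * z ^ n) * x * g⁻¹ := by group
        _ = z ^ n * (g * x * g⁻¹ * x⁻¹) * x := by rw [hc]; group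
        _ = z ^ (n + 1) * x := by rw [← hz, pow_succ]
  have h2 := h1 (orderOf g)
  rw [pow_orderOf_eq_one] at h2
  have h3 : z ^ orderOf g = 1 := by
    have : z ^ orderOf g * x = x := by rw [← h2]; simp
    exact mul_eq_right.1 this
  obtain ⟨k, hk⟩ := hpg ⟨z, hZQ hzZ⟩
  have h4 : z ^ q ^ k = 1 := by
    have := congrArg Subtype.val hk
    simpa using this
  have h5 : orderOf z ∣ Nat.gcd (orderOf g) (q ^ k) :=
    Nat.dvd_gcd (orderOf_dvd_of_pow_eq_one h3) (orderOf_dvd_of_pow_eq_one h4)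
  rw [(Nat.Coprime.pow_right k ho)] at h5
  have h6 : z = 1 := orderOf_eq_one_iff.1 (Nat.dvd_one.1 h5)
  have h7 : g * x * g⁻¹ * x⁻¹ * (x * g) = x * g := by rw [← hz, h6, one_mul]
  rw [← h7]; group

end groups

section pairing
variable {G k : Type} [Group G] [Field k] {q : ℕ} {Q Z : Subgroup G} {c : G → k}

lemma c_one (h : QC q Q Z c) : c 1 = 1 := by
  have h1 := h.cmul 1 Z.one_mem 1 Z.one_mem
  have h2 := h.cne 1 Z.one_mem
  rw [mul_one] at h1
  exact (mul_eq_left₀ h2).1 h1.symm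

/-- the pairing -/
def be (c : G → k) (x y : G) : k := c (x * y * x⁻¹ * y⁻¹)

lemma be_mul_left (h : QC q Q Z c) {u v y : G} (hu : u ∈ Q) (hv : v ∈ Q) (hy : y ∈ Q) :
    be c (u * v) y = be c u y * be c v y := by
  have h1 := h.comm v hv y hy
  have h2 := h.comm u hu y hy
  have h3 := h.cent _ h1 u hu
  have e : u * v * y * (u * v)⁻¹ * y⁻¹ = (u * y * u⁻¹ * y⁻¹) * (v * y * v⁻¹ * y⁻¹) := by
    calc u * v * y * (u * v)⁻¹ * y⁻¹ = u * (v * y * v⁻¹ * y⁻¹) * u⁻¹ * (u * y * u⁻¹ * y⁻¹) := by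
          group
      _ = (v * y * v⁻¹ * y⁻¹) * u * u⁻¹ * (u * y * u⁻¹ * y⁻¹) := by rw [← h3]
      _ = (v * y * v⁻¹ * y⁻¹) * (u * y * u⁻¹ * y⁻¹) := by group
      _ = (u * y * u⁻¹ * y⁻¹) * (v * y * v⁻¹ * y⁻¹) := h.cent _ h1 _ (h.ZQ h2)
  rw [be, e, h.cmul _ h2 _ h1]; rfl

lemma be_one_left (h : QC q Q Z c) (y : G) : be c 1 y = 1 := by
  rw [be]; simpa using c_one h

lemma be_inv_left (h : QC q Q Z c) {u y : G} (hu : u ∈ Q) (hy : y ∈ Q) (h1 : be c u y = 1) :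
    be c u⁻¹ y = 1 := by
  have h2 := be_mul_left h hu (Q.inv_mem hu) hy
  rw [mul_inv_cancel, be_one_left h, h1, one_mul] at h2
  exact h2.symm

lemma be_conj (h : QC q Q Z c) {g : G} (hg : ∀ z ∈ Z, g * z = z * g) {x y : G}
    (hx : x ∈ Q) (hy : y ∈ Q) : be c (g * x * g⁻¹) (g * y * g⁻¹) = be c x y := by
  have h1 := hg _ (h.comm x hx y hy)
  have e : g * x * g⁻¹ * (g * y * g⁻¹) * (g * x * g⁻¹)⁻¹ * (g * y * g⁻¹)⁻¹ =
      x * y * x⁻¹ * y⁻¹ := by
    calc _ = g * (x * y * x⁻¹ * y⁻¹) * g⁻¹ := by group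
      _ = (x * y * x⁻¹ * y⁻¹) * g * g⁻¹ := by rw [h1]
      _ = _ := by group
  rw [be, e]; rfl

lemma be_conj' (h : QC q Q Z c) {g : G} (hg : ∀ z ∈ Z, g * z = z * g) {x y : G}
    (hx : x ∈ Q) (hy : y ∈ Q) : be c (g * x * g⁻¹) y = be c x (g⁻¹ * y * g) := by
  have h1 : g⁻¹ * y * g ∈ Q := by simpa using h.Qn.conj_mem y hy g⁻¹
  have h2 := be_conj h hg hx h1
  rw [← h2]
  congr 1
  group

/-- the elements which centralise `Z` and act trivially on `Q` modulo the radical -/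
def TT (h : QC q Q Z c) : Subgroup G where
  carrier := {g | (∀ z ∈ Z, g * z = z * g) ∧ TrivOn Q c g}
  one_mem' := by
    refine ⟨fun z _ => by simp, fun x _ y _ => ?_⟩
    simpa using c_one h
  mul_mem' := by
    rintro g g' ⟨hg, hg2⟩ ⟨hg', hg2'⟩
    refine ⟨fun z hz => by rw [mul_assoc, hg' z hz, ← mul_assoc, hg z hz, mul_assoc], ?_⟩
    intro x hx y hy
    have m1 : g * x * g⁻¹ * x⁻¹ ∈ Q := Q.mul_mem (h.Qn.conj_mem x hx g) (Q.inv_mem hx)
    have m2 : g' * x * g'⁻¹ * x⁻¹ ∈ Q := Q.mul_mem (h.Qn.conj_mem x hx g') (Q.inv_mem hx)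
    have m3 := h.Qn.conj_mem _ m2 g
    have m4 : g⁻¹ * y * g ∈ Q := by simpa using h.Qn.conj_mem y hy g⁻¹
    have e : g * g' * x * (g * g')⁻¹ * x⁻¹ =
        (g * (g' * x * g'⁻¹ * x⁻¹) * g⁻¹) * (g * x * g⁻¹ * x⁻¹) := by group
    rw [e]
    change be c _ y = 1
    rw [be_mul_left h m3 m1 hy, be_conj' h hg m2 hy]
    have h1 := hg2 x hx y hy
    have h2 := hg2' x hx _ m4
    change be c _ _ = 1 at h1 h2
    rw [h1, h2, mul_one]
  inv_mem' := by
    rintro g ⟨hg, hg2⟩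
    have hgi : ∀ z ∈ Z, g⁻¹ * z = z * g⁻¹ := fun z hz => by
      have := hg z hz
      calc g⁻¹ * z = g⁻¹ * (z * g) * g⁻¹ := by group
        _ = g⁻¹ * (g * z) * g⁻¹ := by rw [this]
        _ = z * g⁻¹ := by group
    refine ⟨hgi, fun x hx y hy => ?_⟩
    have m1 : g * x * g⁻¹ * x⁻¹ ∈ Q := Q.mul_mem (h.Qn.conj_mem x hx g) (Q.inv_mem hx)
    have m4 : g * y * g⁻¹ ∈ Q := h.Qn.conj_mem y hy g
    have e : g⁻¹ * x * g⁻¹⁻¹ * x⁻¹ = g⁻¹ * (g * x * g⁻¹ * x⁻¹)⁻¹ * g⁻¹⁻¹ := by group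
    rw [e]
    change be c _ y = 1
    rw [be_conj' h hgi (Q.inv_mem m1) hy, inv_inv]
    exact be_inv_left h m1 m4 (hg2 x hx _ m4)

lemma mem_TT (h : QC q Q Z c) {g : G} :
    g ∈ TT h ↔ (∀ z ∈ Z, g * z = z * g) ∧ TrivOn Q c g := Iff.rfl

lemma TT_conj (h : QC q Q Z c) {g y : G} (hy : ∀ z ∈ Z, y * z = z * y) (hg : g ∈ TT h) :
    y * g * y⁻¹ ∈ TT h := by
  obtain ⟨hg1, hg2⟩ := hg
  have hyi : ∀ z ∈ Z, y⁻¹ * z = z * y⁻¹ := fun z hz => by
    have := hy z hz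
    calc y⁻¹ * z = y⁻¹ * (z * y) * y⁻¹ := by group
      _ = y⁻¹ * (y * z) * y⁻¹ := by rw [this]
      _ = z * y⁻¹ := by group
  refine ⟨fun z hz => ?_, fun x hx w hw => ?_⟩
  · rw [mul_assoc, hyi z hz, ← mul_assoc, mul_assoc y g z, hg1 z hz, ← mul_assoc, hy z hz]
    group
  · have m0 : y⁻¹ * x * y ∈ Q := by simpa using h.Qn.conj_mem x hx y⁻¹
    have m1 : g * (y⁻¹ * x * y) * g⁻¹ * (y⁻¹ * x * y)⁻¹ ∈ Q :=
      Q.mul_mem (h.Qn.conj_mem _ m0 g) (Q.inv_mem m0)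
    have m4 : y⁻¹ * w * y ∈ Q := by simpa using h.Qn.conj_mem w hw y⁻¹
    have e : y * g * y⁻¹ * x * (y * g * y⁻¹)⁻¹ * x⁻¹ =
        y * (g * (y⁻¹ * x * y) * g⁻¹ * (y⁻¹ * x * y)⁻¹) * y⁻¹ := by group
    rw [e]
    change be c _ w = 1
    rw [be_conj' h hy m1 hw]
    exact hg2 _ m0 _ m4

lemma TT_of_centralises (h : QC q Q Z c) {g : G} (hg : ∀ x ∈ Q, g * x = x * g) : g ∈ TT h := by
  refine ⟨fun z hz => hg z (h.ZQ hz), fun x hx y _ => ?_⟩
  have e : g * x * g⁻¹ * x⁻¹ = 1 := by rw [hg x hx]; group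
  rw [e]
  simpa using c_one h

end pairing

/-- the case `p = 2` -/
theorem twoStm (ab : AbStm) (wd : WDStm) (sep : SepF2Stm) (ch : ChainStm) : TwoStm := by
  intro π q _ k G V _ _ _ _ _ _ _ ρ L Q Z N l r K P₁ P₂ h2π hqπ hH hsol hVC hQD hf hN hPE
  have : Fact (Nat.Prime 2) := ⟨Nat.prime_two⟩
  have hq : q.Prime := Fact.out
  have hq2 : q ≠ 2 := fun h => hqπ (h ▸ h2π)
  have hNn : N.Normal := normal_N hQD.Qn hQD.Zn hN
  -- the last nontrivial term acts quadratically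
  set A := DS L (l + 1) with hA
  have hl : l + 1 ≠ 0 := Nat.succ_ne_zero l
  have cardZ : ((Nat.card Z : ℕ) : k) ≠ 0 := by
    have h1 : IsPGroup q Z := fun z => by
      obtain ⟨m, hm⟩ := hQD.pg ⟨z, hQD.ZQ z.2⟩
      refine ⟨m, ?_⟩
      have := congrArg Subtype.val hm
      apply Subtype.ext
      simpa using this
    obtain ⟨n, hn⟩ := IsPGroup.iff_card.1 h1
    rw [hn, Nat.cast_pow]
    refine pow_ne_zero _ fun h0 => ?_
    have h3 := (CharP.cast_eq_zero_iff k 2 q).1 h0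
    exact hq2 ((Nat.prime_dvd_prime_iff_eq Nat.prime_two hq).1 h3).symm
  have hAZ : ∀ g ∈ A, ∀ z ∈ Z, g * z = z * g :=
    ab 2 k G V ρ L hsol (l + 1) hVC Z hQD.Zn (fun x hx y hy => hQD.cent x hx y (hQD.ZQ hy))
      cardZ (fun x hx => hf x (hQD.ZQ hx))
  have hA2 : ∀ g ∈ A, ∀ x ∈ Q, g * g * x = x * (g * g) := by
    intro g hg x hx
    have h1 := pow_DS (p := 2) hl hVC hg
    have := centralises hQD.Qn hf h1 hx
    rwa [pow_two] at this
  have hAc : ∀ g ∈ A, ∀ g' ∈ A, ∀ x ∈ Q, (g * g' * g⁻¹ * g'⁻¹) * x = x * (g * g' * g⁻¹ * g'⁻¹) := by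
    intro g hg g' hg' x hx
    refine centralises hQD.Qn hf ?_ hx
    have h1 := commute_DS hl hVC hg hg'
    rw [map_mul, map_mul, map_mul, h1, ← map_mul, ← map_mul, ← map_mul]
    simp
  set J := Subgroup.centralizer (Z : Set G) with hJ
  have memJ : ∀ g, g ∈ J ↔ ∀ z ∈ Z, g * z = z * g := by
    intro g
    rw [hJ, Subgroup.mem_centralizer_iff]
    exact ⟨fun h z hz => (h z hz).symm, fun h z hz => (h z hz).symm⟩
  have hZn := hQD.Zn
  have hJn : J.Normal := inferInstance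
  have hAJ : A ≤ J := fun g hg => (memJ g).2 (hAZ g hg)
  have hP1π : PF π N P₁ := hPE.pf.set_mono (by rintro _ rfl; exact hPE.rπ)
  have hNP1 : N ≤ P₁ := hPE.NP.trans hPE.PP
  -- (1)
  have s1 : P₁ ≤ (L ⊓ P₁) ⊔ N := hall_decomp hH hPE.LK hPE.PK hPE.inv₁ hNn hP1π
  obtain ⟨a, haCE, haP2⟩ : ∃ a ∈ CE (L ⊓ P₁) (DS L) (l + 1), a ∉ P₂ := by
    by_contra hcon
    push Not at hcon
    exact hPE.large ((CE.le_sup hNn s1 (l + 1)).trans (sup_le hcon hPE.NP))
  have hLP1 : Inv L (L ⊓ P₁) := (Inv.self L).inf (hPE.inv₁.mono hPE.LK)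
  have haA : a ∈ A := CE.le_DS inf_le_left _ haCE
  have haP1 : a ∈ P₁ := (CE.le hLP1 _ haCE).2
  have haJ : a ∈ J := hAJ haA
  have hR : Inv K (P₁ ⊓ J) := hPE.inv₁.inf (Inv.of_normal K hJn)
  have hP1J : (P₁ ⊓ J) ⊔ N = P₁ := by
    rcases hPE.max ((P₁ ⊓ J) ⊔ N) le_sup_right (sup_le inf_le_left hNP1)
      (hR.sup (Inv.of_normal K hNn)) with h | h
    · exact h
    · exact absurd (h (Subgroup.mem_sup_left ⟨haP1, haJ⟩)) haP2
  -- (2)
  set Pt := L ⊓ (P₁ ⊓ J) with hPt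
  have s2 : P₁ ⊓ J ≤ Pt ⊔ N := hall_decomp hH hPE.LK (inf_le_left.trans hPE.PK) hR hNn
    (hP1π.mono le_rfl inf_le_left)
  have hP1Pt : P₁ ≤ Pt ⊔ N := by
    rw [← hP1J]
    exact sup_le s2 le_sup_right
  have hPtL : Inv L Pt := (Inv.self L).inf (hR.mono hPE.LK)
  have hPtJ : ∀ g ∈ Pt, ∀ z ∈ Z, g * z = z * g := fun g hg => (memJ g).1 hg.2.2
  have hPtN : ∀ g ∈ Pt, g ∈ N → ∀ x ∈ Q, g * x = x * g := by
    intro g hg hgN x hx
    refine centralises_of_coprime hQD.ZQ hQD.pg (hPtJ g hg) ((hN g).1 hgN) ?_ hx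
    refine (hH.1.orderOf hg.1).coprime ?_
    exact PN.prime hq hqπ
  -- (3) not needed: r = 2 is not used below
  -- (4)
  have s4 : ∀ y ∈ P₁, ∀ x ∈ P₁, y * x * y⁻¹ * x⁻¹ ∈ N := by
    let Y : Subgroup G :=
      { carrier := {y | y ∈ P₁ ∧ ∀ x ∈ P₁, y * x * y⁻¹ * x⁻¹ ∈ N}
        one_mem' := ⟨P₁.one_mem, fun x _ => by simp⟩
        mul_mem' := by
          rintro y y' ⟨hy, hy2⟩ ⟨hy', hy2'⟩
          refine ⟨P₁.mul_mem hy hy', fun x hx => ?_⟩
          have e : y * y' * x * (y * y')⁻¹ * x⁻¹ =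
              (y * (y' * x * y'⁻¹ * x⁻¹) * y⁻¹) * (y * x * y⁻¹ * x⁻¹) := by group
          rw [e]
          exact N.mul_mem (hNn.conj_mem _ (hy2' x hx) y) (hy2 x hx)
        inv_mem' := by
          rintro y ⟨hy, hy2⟩
          refine ⟨P₁.inv_mem hy, fun x hx => ?_⟩
          have e : y⁻¹ * x * y⁻¹⁻¹ * x⁻¹ = y⁻¹ * (y * x * y⁻¹ * x⁻¹)⁻¹ * y⁻¹⁻¹ := by group
          rw [e]
          exact hNn.conj_mem _ (N.inv_mem (hy2 x hx)) y⁻¹ }
    have hYK : Inv K Y := by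
      rintro g hg y ⟨hy, hy2⟩
      refine ⟨hPE.inv₁ g hg y hy, fun x hx => ?_⟩
      have m0 : g⁻¹ * x * g ∈ P₁ := hPE.inv₁.inv_conj hg hx
      have e : g * y * g⁻¹ * x * (g * y * g⁻¹)⁻¹ * x⁻¹ =
          g * (y * (g⁻¹ * x * g) * y⁻¹ * (g⁻¹ * x * g)⁻¹) * g⁻¹ := by group
      rw [e]
      exact hNn.conj_mem _ (hy2 _ m0) g
    have hNY : N ≤ Y := by
      intro n hn
      refine ⟨hNP1 hn, fun x _ => ?_⟩
      have e : n * x * n⁻¹ * x⁻¹ = n * (x * n⁻¹ * x⁻¹) := by group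
      rw [e]
      exact N.mul_mem hn (hNn.conj_mem _ (N.inv_mem hn) x)
    rcases hPE.max Y hNY (fun y hy => hy.1) hYK with hY | hY
    · intro y hy
      rw [← hY] at hy
      exact hy.2
    · exfalso
      obtain ⟨x, hx, hxN⟩ : ∃ x ∈ P₁, a * x * a⁻¹ * x⁻¹ ∉ N := by
        by_contra hcon
        push Not at hcon
        exact haP2 (hY ⟨haP1, hcon⟩)
      obtain ⟨y, hy, n, hn, rfl⟩ := (mem_sup_inv (Inv.of_normal Pt hNn)).1 (hP1Pt hx)
      have hyJ := hPtJ y hy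
      obtain ⟨z, hz⟩ : ∃ z, z = a⁻¹ * (y * a * y⁻¹) := ⟨_, rfl⟩
      have hzA : z ∈ A := hz ▸ A.mul_mem (A.inv_mem haA) (DS.inv L (l + 1) y hy.1 a haA)
      have hzN : z ∉ N := by
        intro hzN
        apply hxN
        have e : a * (y * n) * a⁻¹ * (y * n)⁻¹ =
            (a * z⁻¹ * a⁻¹) * (y * (a * n * a⁻¹ * n⁻¹) * y⁻¹) := by rw [hz]; group
        rw [e]
        exact N.mul_mem (hNn.conj_mem _ (N.inv_mem hzN) a)
          (hNn.conj_mem _ (N.mul_mem (hNn.conj_mem _ hn a) (N.inv_mem hn)) y)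
      obtain ⟨x, hxQ, hxZ⟩ : ∃ x ∈ Q, z * x * z⁻¹ * x⁻¹ ∉ Z := by
        by_contra hcon
        push Not at hcon
        exact hzN ((hN z).2 hcon)
      have huQ : z * x * z⁻¹ * x⁻¹ ∈ Q := Q.mul_mem (hQD.Qn.conj_mem x hxQ z) (Q.inv_mem hxQ)
      obtain ⟨j, e, c, hWD, w, hw, hcw⟩ := wd 2 q k G V ρ L Q Z (l + 1) (Ne.symm hq2) hsol hVC
        hQD hf _ huQ hxZ
      have hQC := hWD.toWC.toQC
      set T := TT hQC with hT
      have nz : z ∉ T := fun h => hcw (h.2 x hxQ w hw)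
      have na : a ∉ T := fun h => nz (hz ▸ T.mul_mem (T.inv_mem h) (TT_conj hQC hyJ h))
      have hyJ' : ∀ z ∈ Z, y⁻¹ * z = z * y⁻¹ := (memJ _).1 (J.inv_mem ((memJ _).2 hyJ))
      have naz : a * z ∉ T := by
        intro h
        apply na
        have h1 : y⁻¹ * (a * z) * y⁻¹⁻¹ ∈ T := TT_conj hQC hyJ' h
        have e1 : y⁻¹ * (a * z) * y⁻¹⁻¹ = a := by rw [hz]; group
        rwa [e1] at h1
      have sq : a * a ∈ T := TT_of_centralises hQC (hA2 a haA)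
      have com : z⁻¹ * a⁻¹ * z * a ∈ T := by
        refine TT_of_centralises hQC fun x hx => ?_
        have := hAc z⁻¹ (A.inv_mem hzA) a⁻¹ (A.inv_mem haA) x hx
        simpa using this
      have nza : z⁻¹ * a * z ∉ T := by
        intro h
        apply na
        have h1 := T.mul_mem h com
        have e1 : z⁻¹ * a * z * (z⁻¹ * a⁻¹ * z * a) = a := by group
        rwa [e1] at h1
      have naz' : a⁻¹ * z ∉ T := by
        intro h
        apply naz
        have h1 := T.mul_mem sq h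
        have e1 : a * a * (a⁻¹ * z) = a * z := by group
        rwa [e1] at h1
      classical
      have d1 : (1 : G) ≠ a := fun h => na (h ▸ T.one_mem)
      have d2 : (1 : G) ≠ z := fun h => nz (h ▸ T.one_mem)
      have d3 : (1 : G) ≠ a * z := fun h => naz (h ▸ T.one_mem)
      have d4 : a ≠ z := fun h => naz' (by rw [← h]; simp)
      have d5 : a ≠ a * z := fun h => d2 (left_eq_mul.1 h).symm
      have d6 : z ≠ a * z := fun h => d1 (right_eq_mul.1 h).symm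
      have hs : ∀ g ∈ ({1, a, z, a * z} : Finset G), g ∈ A := by
        intro g hg
        simp only [Finset.mem_insert, Finset.mem_singleton] at hg
        rcases hg with rfl | rfl | rfl | rfl
        · exact A.one_mem
        · exact haA
        · exact hzA
        · exact A.mul_mem haA hzA
      obtain ⟨g, hg, g', hg', hne, htr⟩ := sep q k G V ρ Q Z e c hq2 hWD.toWC
        {1, a, z, a * z} ⟨1, by simp⟩ (fun g => if g = a ∨ g = z then -1 else 1)
        (fun g _ => by split_ifs <;> simp)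
        (fun g hg => hAZ g (hs g hg)) (fun g hg => hA2 g (hs g hg))
        (fun g hg g' hg' x hx => by
          have h1 := hAc g⁻¹ (A.inv_mem (hs g hg)) g'⁻¹ (A.inv_mem (hs g' hg')) x hx
          calc g * g' * x * (g * g')⁻¹
              = g' * g * ((g⁻¹ * g'⁻¹ * g⁻¹⁻¹ * g'⁻¹⁻¹) * x) * (g * g')⁻¹ := by group
            _ = g' * g * (x * (g⁻¹ * g'⁻¹ * g⁻¹⁻¹ * g'⁻¹⁻¹)) * (g * g')⁻¹ := by rw [h1]
            _ = g' * g * x * (g' * g)⁻¹ := by group)
        (by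
          rw [Finset.sum_insert (by simp [d1, d2, d3]), Finset.sum_insert (by simp [d4, d5]),
            Finset.sum_insert (by simp [d6]), Finset.sum_singleton]
          rw [if_neg (by simp [d1, d2]), if_pos (Or.inl rfl), if_pos (Or.inr rfl),
            if_neg (by simp [d5.symm, d6.symm])]
          have h1 := quadratic_DS hl hVC haA hzA
          have h2 : (ρ a - 1) * (ρ z - 1) * e = 0 := by rw [h1, zero_mul]
          rw [← h2, map_mul, map_one]
          simp only [one_smul, neg_smul]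
          noncomm_ring)
      have hgg : g⁻¹ * g' ∈ T := by
        refine ⟨fun z hz => ?_, htr⟩
        exact hAZ _ (A.mul_mem (A.inv_mem (hs g hg)) (hs g' hg')) z hz
      have hgg' : g'⁻¹ * g ∈ T := by
        have := T.inv_mem hgg
        simpa using this
      simp only [Finset.mem_insert, Finset.mem_singleton] at hg hg'
      rcases hg with h1 | h1 | h1 | h1 <;> rcases hg' with h2 | h2 | h2 | h2 <;>
        rw [h1, h2] at hgg hgg'
      · exact hne (h1.trans h2.symm)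
      · exact na (by simpa using hgg)
      · exact nz (by simpa using hgg)
      · exact naz (by simpa using hgg)
      · exact na (by simpa using hgg')
      · exact hne (h1.trans h2.symm)
      · exact naz' hgg
      · exact nz (by simpa using hgg)
      · exact nz (by simpa using hgg')
      · exact naz' hgg'
      · exact hne (h1.trans h2.symm)
      · exact nza (by simpa [mul_assoc] using hgg)
      · exact naz (by simpa using hgg')
      · exact nz (by simpa using hgg')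
      · exact nza (by simpa [mul_assoc] using hgg')
      · exact hne (h1.trans h2.symm)
  -- (5)
  have s5 : ∀ g ∈ P₁, g * g ∈ N := by
    let E : Subgroup G :=
      { carrier := {y | y ∈ P₁ ∧ y * y ∈ N}
        one_mem' := ⟨P₁.one_mem, by simp⟩
        mul_mem' := by
          rintro y y' ⟨hy, hy2⟩ ⟨hy', hy2'⟩
          refine ⟨P₁.mul_mem hy hy', ?_⟩
          have e : y * y' * (y * y') = (y * y) * (y⁻¹ * y' * y⁻¹⁻¹ * y'⁻¹) * (y' * y') := by group
          rw [e]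
          exact N.mul_mem (N.mul_mem hy2 (s4 _ (P₁.inv_mem hy) _ hy')) hy2'
        inv_mem' := by
          rintro y ⟨hy, hy2⟩
          refine ⟨P₁.inv_mem hy, ?_⟩
          have e : y⁻¹ * y⁻¹ = (y * y)⁻¹ := by group
          rw [e]
          exact N.inv_mem hy2 }
    have hEK : Inv K E := by
      rintro g hg y ⟨hy, hy2⟩
      refine ⟨hPE.inv₁ g hg y hy, ?_⟩
      have e : g * y * g⁻¹ * (g * y * g⁻¹) = g * (y * y) * g⁻¹ := by group
      rw [e]
      exact hNn.conj_mem _ hy2 g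
    have hNE : N ≤ E := fun n hn => ⟨hNP1 hn, N.mul_mem hn hn⟩
    have haE : a ∈ E := by
      refine ⟨haP1, (hN _).2 fun x hx => ?_⟩
      have e : a * a * x * (a * a)⁻¹ * x⁻¹ = 1 := by
        rw [hA2 a haA x hx]; group
      rw [e]
      exact Z.one_mem
    rcases hPE.max E hNE (fun y hy => hy.1) hEK with hE | hE
    · intro y hy
      rw [← hE] at hy
      exact hy.2
    · exact absurd (hE haE) haP2
  -- (6)
  have s6 : ∀ g ∈ CE Pt (DS L) (l + 1), ∀ x ∈ Q, g * x * g⁻¹ * x⁻¹ ∈ Z := by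
    refine ch q k G V ρ L Q Z Pt (l + 1) hq2 hsol hVC hQD hf inf_le_left hPtL hPtJ ?_ ?_
    · intro g hg x hx
      exact hPtN _ (Pt.mul_mem hg hg) (s5 g hg.2.1) x hx
    · intro g hg g' hg' x hx
      have h1 := hPtN (g⁻¹ * g'⁻¹ * g * g')
        (Pt.mul_mem (Pt.mul_mem (Pt.mul_mem (Pt.inv_mem hg) (Pt.inv_mem hg')) hg) hg')
        (by
          have := s4 g⁻¹ (P₁.inv_mem hg.2.1) g'⁻¹ (P₁.inv_mem hg'.2.1)
          simpa using this) x hx
      calc g * g' * x * (g * g')⁻¹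
          = g' * g * (g⁻¹ * g'⁻¹ * g * g' * x) * (g * g')⁻¹ := by group
        _ = g' * g * (x * (g⁻¹ * g'⁻¹ * g * g')) * (g * g')⁻¹ := by rw [h1]
        _ = g' * g * x * (g' * g)⁻¹ := by group
  have s7 : CE Pt (DS L) (l + 1) ≤ N := fun g hg => (hN g).2 (s6 g hg)
  exact hPE.large ((CE.le_sup hNn hP1Pt (l + 1)).trans (sup_le (s7.trans hPE.NP) hPE.NP))

end Pool.Agent.TH31.J832
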