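import Pool.Agent.TH63.RD.AsmDef
import Pool.Agent.Helper475.Torsion

/-!
# Assembly of the tower of quotients (helper31, job 1086 of helper63)
-/

set_option autoImplicit false

open scoped Pointwise

namespace Pool.Agent.TH31.RD

open Pool.Agent.TH63.RD Pool.Agent.TH64 Pool.Agent.Helper475.Torsion

/-- the map to the Gupta-Sidki group -/
def phi : FreeGroup (Fin 2) →* P := FreeGroup.lift (fun i => if i = 0 then rot 1 else b)

theorem phi_mem (g : FreeGroup (Fin 2)) : phi g ∈ GS := by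
  have h : phi.range ≤ GS := by
    apply FreeGroup.range_lift_le
    rintro _ ⟨i, rfl⟩
    by_cases hi : i = 0
    · simp only [hi, if_true]
      exact Subgroup.subset_closure (Or.inl rfl)
    · simp only [hi, if_false]
      exact Subgroup.subset_closure (Or.inr rfl)
  exact h ⟨g, rfl⟩

theorem exists_phi (g : P) (hg : g ∈ GS) : ∃ y, phi y = g := by
  have h : GS ≤ phi.range := by
    unfold GS
    rw [Subgroup.closure_le]
    rintro y (rfl | hy)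
    · exact ⟨FreeGroup.of 0, by simp [phi]⟩
    · rw [Set.mem_singleton_iff] at hy
      subst hy
      exact ⟨FreeGroup.of 1, by simp [phi]⟩
  exact h hg

theorem sq_nonneg' {G : Type*} [Group G] (f : MonoidAlgebra ℝ G) : 0 ≤ Pool.Agent.TH63.RD.sq f :=
  Finset.sum_nonneg (fun _ _ => sq_nonneg _)

theorem RDB_mono {G : Type*} [Group G] {ℓ : G → ℕ} {r : ℕ} {K K' : ℝ} (h : K ≤ K')
    (hR : RDB ℓ r K) : RDB ℓ r K' := by
  intro f g hf
  refine (hR f g hf).trans ?_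
  rw [mul_assoc, mul_assoc]
  exact mul_le_mul_of_nonneg_right h (mul_nonneg (sq_nonneg' f) (sq_nonneg' g))

theorem Lev_mono {G : Type} [Group G] {H : Hyp G} {E E' : ℝ} (h : E ≤ E') (hL : Lev H E) :
    Lev H E' :=
  ⟨hL.odd, hL.com, fun r => RDB_mono (mul_le_mul_of_nonneg_right h (by positivity)) (hL.rd r)⟩

/-- the invariants of the construction -/
structure Lv (E : ℝ) (R : Subgroup (FreeGroup (Fin 2))) : Prop where
  ex : ∃ (Q : Type) (_ : Group Q) (ψ : FreeGroup (Fin 2) →* Q) (H : Hyp Q),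
    Function.Surjective ψ ∧ (∀ g, ψ g = 1 ↔ g ∈ R) ∧ (∀ g, H.len (ψ g) ≤ g.norm) ∧
    (∀ q, ∃ g : FreeGroup (Fin 2), ψ g = q ∧ g.norm ≤ H.len q) ∧ Lev H E
  gs : ∀ g ∈ R, phi g = 1

theorem Lv_base (E0 : ℝ)
    (hbase : ∀ r : ℕ, RDB (G := FreeGroup (Fin 2)) FreeGroup.norm r (E0 * (1 + r) ^ 7)) :
    Lv E0 ⊥ := by
  refine ⟨⟨FreeGroup (Fin 2), inferInstance, MonoidHom.id _, FreeBase.freeHyp,
    Function.surjective_id, ?_, ?_, ?_, ?_⟩, ?_⟩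
  · intro g
    rw [Subgroup.mem_bot]
    rfl
  · intro g
    exact le_rfl
  · intro g
    exact ⟨g, rfl, le_rfl⟩
  · refine ⟨?_, ?_, hbase⟩
    · intro a ha
      rw [FreeBase.free_torsion_free a ha, orderOf_one]
      exact odd_one
    · intro a g ha ha'
      exact absurd (FreeBase.free_torsion_free a ha') ha
  · intro g hg
    rw [Subgroup.mem_bot.1 hg, map_one]

theorem Lv_step (hstep : StepG) (hGS : ∀ g : P, g ∈ GS → ∃ k : ℕ, g ^ (3 ^ k) = 1) {E E' : ℝ}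
    (hE : 1 ≤ E) (hE' : E < E') {R : Subgroup (FreeGroup (Fin 2))} (hR : Lv E R)
    (γ : FreeGroup (Fin 2)) :
    ∃ R' : Subgroup (FreeGroup (Fin 2)), R ≤ R' ∧ Lv E' R' ∧ ∃ m : ℕ, 1 ≤ m ∧ γ ^ m ∈ R' := by
  obtain ⟨Q, _, ψ, H, hψ, hker, hlen, hlift, hL⟩ := hR.ex
  by_cases hfin : IsOfFinOrder (ψ γ)
  · obtain ⟨m, hm, hm1⟩ := isOfFinOrder_iff_pow_eq_one.1 hfin
    rw [← map_pow, hker] at hm1
    exact ⟨R, le_rfl, ⟨⟨Q, _, ψ, H, hψ, hker, hlen, hlift, Lev_mono hE'.le hL⟩, hR.gs⟩, m, hm, hm1⟩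
  obtain ⟨x, ⟨j, hj⟩, N0, hN0⟩ := hstep Q H E E' hE hE' hL (ψ γ) hfin
  obtain ⟨X, hX⟩ := hψ x
  obtain ⟨k, hk⟩ := hGS (phi X) (phi_mem X)
  set N := 3 ^ k * (2 * N0 + 1) with hN
  have hNodd : Odd N := by
    rw [hN]
    exact (Odd.pow (by decide)).mul ⟨N0, rfl⟩
  have hNN : N0 ≤ N := by
    have h1 : 1 ≤ 3 ^ k := Nat.one_le_pow _ _ (by norm_num)
    calc N0 ≤ 1 * (2 * N0 + 1) := by omega
      _ ≤ _ := Nat.mul_le_mul_right _ h1
  obtain ⟨H', hH', hL'⟩ := hN0 N hNN hNodd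
  set M := Subgroup.normalClosure ({x ^ N} : Set Q) with hM
  have hMn : M.Normal := Subgroup.normalClosure_normal
  have hxN : x ^ N ∈ M := Subgroup.subset_normalClosure rfl
  refine ⟨M.comap ψ, ?_, ⟨⟨Q ⧸ M, inferInstance, (QuotientGroup.mk' M).comp ψ, H',
    (QuotientGroup.mk'_surjective M).comp hψ, ?_, ?_, ?_, hL'⟩, ?_⟩, N, hNodd.pos, ?_⟩
  · intro r hr
    show ψ r ∈ M
    rw [(hker r).2 hr]
    exact M.one_mem
  · intro g
    exact QuotientGroup.eq_one_iff _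
  · intro g
    rw [hH']
    exact (H.qlen_le M (ψ g)).trans (hlen g)
  · intro q
    obtain ⟨y, hy, hyl⟩ := H.qlen_rep M q
    obtain ⟨g, hg, hgl⟩ := hlift y
    refine ⟨g, ?_, ?_⟩
    · rw [← hy, ← hg]
      rfl
    · rw [hH', ← hyl]
      exact hgl
  · intro g hg
    have hg' : ψ g ∈ M := hg
    have hnK : (phi.ker.map ψ).Normal := Subgroup.Normal.map inferInstance ψ hψ
    have hMK : M ≤ phi.ker.map ψ := by
      apply Subgroup.normalClosure_le_normal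
      rintro _ rfl
      refine ⟨X ^ N, ?_, by rw [map_pow, hX]⟩
      show phi (X ^ N) = 1
      rw [map_pow, hN, pow_mul, hk, one_pow]
    obtain ⟨y, hy, hyg⟩ := hMK hg'
    have hy' : phi y = 1 := hy
    have h1 : g * y⁻¹ ∈ R := by
      rw [← hker, map_mul, map_inv, hyg, mul_inv_cancel]
    have h2 := hR.gs _ h1
    rwa [map_mul, map_inv, hy', inv_one, mul_one] at h2
  · show ψ (γ ^ N) ∈ M
    rw [map_pow, ← hj, ← zpow_natCast, ← zpow_mul, mul_comm, zpow_mul, zpow_natCast]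
    exact M.zpow_mem hxN j

theorem normal_of_Lv {E : ℝ} {R : Subgroup (FreeGroup (Fin 2))} (h : Lv E R) : R.Normal := by
  obtain ⟨Q, _, ψ, H, -, hker, -⟩ := h.ex
  have : R = ψ.ker := by
    ext g
    rw [MonoidHom.mem_ker, hker]
  rw [this]
  infer_instance

/-- the constants -/
noncomputable def Ej (E0 : ℝ) (j : ℕ) : ℝ := E0 * (2 - (1 / 2) ^ j)

theorem Ej_zero (E0 : ℝ) : Ej E0 0 = E0 := by unfold Ej; norm_num

theorem Ej_ge {E0 : ℝ} (h : 1 ≤ E0) (j : ℕ) : 1 ≤ Ej E0 j := by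
  unfold Ej
  have h1 : ((1 : ℝ) / 2) ^ j ≤ 1 := pow_le_one₀ (by norm_num) (by norm_num)
  nlinarith

theorem Ej_lt {E0 : ℝ} (h : 1 ≤ E0) (j : ℕ) : Ej E0 j < Ej E0 (j + 1) := by
  unfold Ej
  have h1 : (0 : ℝ) < ((1 : ℝ) / 2) ^ j := by positivity
  rw [pow_succ]
  nlinarith

theorem Ej_le {E0 : ℝ} (h : 1 ≤ E0) (j : ℕ) : Ej E0 j ≤ 2 * E0 := by
  unfold Ej
  have h1 : (0 : ℝ) < ((1 : ℝ) / 2) ^ j := by positivity
  nlinarith

theorem asm (hstep : StepG) (E0 : ℝ) (hE0 : 1 ≤ E0)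
    (hbase : ∀ r : ℕ, RDB (G := FreeGroup (Fin 2)) FreeGroup.norm r (E0 * (1 + r) ^ 7))
    (hGS : ∀ g : P, g ∈ GS → ∃ k : ℕ, g ^ (3 ^ k) = 1) :
    ∃ (R : ℕ → Subgroup (FreeGroup (Fin 2))) (Ri : Subgroup (FreeGroup (Fin 2))) (_ : Ri.Normal),
      Monotone R ∧ (∀ g, g ∈ Ri ↔ ∃ j, g ∈ R j) ∧
      (∀ j, ∃ (Q : Type) (_ : Group Q) (ψ : FreeGroup (Fin 2) →* Q) (H : Hyp Q),
        (∀ g, ψ g = 1 ↔ g ∈ R j) ∧ (∀ g, H.len (ψ g) ≤ g.norm) ∧
        ∀ r : ℕ, RDB H.len r (2 * E0 * (1 + r) ^ 7)) ∧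
      Infinite (FreeGroup (Fin 2) ⧸ Ri) ∧ Monoid.IsTorsion (FreeGroup (Fin 2) ⧸ Ri) := by
  classical
  have hstep' : ∀ (j : ℕ) (R : {R : Subgroup (FreeGroup (Fin 2)) // Lv (Ej E0 j) R})
      (γ : FreeGroup (Fin 2)), ∃ R' : {R : Subgroup (FreeGroup (Fin 2)) // Lv (Ej E0 (j + 1)) R},
      R.1 ≤ R'.1 ∧ ∃ m : ℕ, 1 ≤ m ∧ γ ^ m ∈ R'.1 := by
    intro j R γ
    obtain ⟨R', h1, h2, h3⟩ := Lv_step hstep hGS (Ej_ge hE0 j) (Ej_lt hE0 j) R.2 γ
    exact ⟨⟨R', h2⟩, h1, h3⟩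
  choose nx hnx1 hnx2 using hstep'
  obtain ⟨en, hen⟩ := exists_surjective_nat (FreeGroup (Fin 2))
  let sq' : (j : ℕ) → {R : Subgroup (FreeGroup (Fin 2)) // Lv (Ej E0 j) R} := fun j =>
    Nat.rec (motive := fun j => {R : Subgroup (FreeGroup (Fin 2)) // Lv (Ej E0 j) R})
      ⟨⊥, by rw [Ej_zero]; exact Lv_base E0 hbase⟩ (fun j R => nx j R (en j)) j
  have hsucc : ∀ j, sq' (j + 1) = nx j (sq' j) (en j) := fun j => rfl
  have hmono : Monotone (fun j => (sq' j).1) := by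
    apply monotone_nat_of_le_succ
    intro j
    rw [hsucc]
    exact hnx1 j _ _
  have hmem : ∀ g, g ∈ (⨆ j, (sq' j).1) ↔ ∃ j, g ∈ (sq' j).1 := by
    intro g
    exact Subgroup.mem_iSup_of_directed hmono.directed_le
  have hnorm : (⨆ j, (sq' j).1).Normal := by
    constructor
    intro n hn g
    rw [hmem] at hn ⊢
    obtain ⟨j, hj⟩ := hn
    exact ⟨j, (normal_of_Lv (sq' j).2).conj_mem n hj g⟩
  refine ⟨fun j => (sq' j).1, ⨆ j, (sq' j).1, hnorm, hmono, hmem, ?_, ?_, ?_⟩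
  · intro j
    obtain ⟨Q, hQ, ψ, H, -, hker, hlen, -, hL⟩ := (sq' j).2.ex
    refine ⟨Q, hQ, ψ, H, hker, hlen, ?_⟩
    intro r
    exact (Lev_mono (Ej_le hE0 j) hL).rd r
  · by_contra hfin
    rw [not_infinite_iff_finite] at hfin
    have hk : ∀ g ∈ (⨆ j, (sq' j).1), phi g = 1 := by
      intro g hg
      obtain ⟨j, hj⟩ := (hmem g).1 hg
      exact (sq' j).2.gs g hj
    let f : (FreeGroup (Fin 2) ⧸ (⨆ j, (sq' j).1)) →* P := QuotientGroup.lift _ phi hk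
    have h1 : (GS : Set P) ⊆ Set.range f := by
      intro g hg
      obtain ⟨y, hy⟩ := exists_phi g hg
      exact ⟨(y : FreeGroup (Fin 2) ⧸ (⨆ j, (sq' j).1)), hy⟩
    have h2 : (GS : Set P).Finite := (Set.finite_range f).subset h1
    exact (Set.infinite_coe_iff.1 infinite_GS) h2
  · intro q
    obtain ⟨g, rfl⟩ := QuotientGroup.mk_surjective q
    obtain ⟨j, hj⟩ := hen g
    obtain ⟨m, hm, hmR⟩ := hnx2 j (sq' j) (en j)
    rw [isOfFinOrder_iff_pow_eq_one]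
    refine ⟨m, hm, ?_⟩
    rw [← QuotientGroup.mk_pow, QuotientGroup.eq_one_iff, hmem]
    exact ⟨j + 1, by rw [hsucc, ← hj]; exact hmR⟩

end Pool.Agent.TH31.RD
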