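import Pool.Agent.Helper475.Torsion

/-!
# The Gupta-Sidki group is a 3-group (helper31, job 1062 of helper63)

The argument is the one of `Pool.Agent.Helper475.Torsion.torsion_aux`.
-/

set_option autoImplicit false

namespace Pool.Agent.TH31.RD

open Pool.Agent.Helper475.Torsion

/-- the order of `g` divides a power of 3 -/
def T3 (g : P) : Prop := ∃ k : ℕ, g ^ (3 ^ k) = 1

theorem t3_psi (h : ZMod 3 → P) (hh : ∀ x, T3 (h x)) : T3 (psi h) := by
  choose k hk using hh
  refine ⟨∑ x, k x, ?_⟩
  rw [← map_pow]
  have : h ^ (3 ^ (∑ x, k x)) = 1 := by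
    funext x
    rw [Pi.pow_apply, Pi.one_apply]
    have h1 : k x ≤ ∑ x, k x := Finset.single_le_sum (fun _ _ => Nat.zero_le _) (Finset.mem_univ x)
    obtain ⟨m, hm⟩ := pow_dvd_pow 3 h1
    rw [hm, pow_mul, hk, one_pow]
  rw [this, map_one]

theorem t3_b (n : ℤ) : T3 (b ^ n) := by
  refine ⟨1, ?_⟩
  rw [pow_one, ← zpow_natCast, ← zpow_mul, mul_comm, zpow_mul, zpow_natCast, b_pow_three, one_zpow]

theorem t3_aux : ∀ n : ℕ, ∀ l : List (ZMod 3 × ℤ), l.length = n → ∀ k : ZMod 3,
    T3 (prodL l * rot k) := by
  intro n
  induction n using Nat.strong_induction_on with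
  | _ n ih =>
    have P0 : ∀ l : List (ZMod 3 × ℤ), l.length = n → T3 (prodL l) := by
      intro l hl
      by_cases hx : ∃ x, cnt x l = n
      · obtain ⟨x, hx⟩ := hx
        have hall : ∀ p ∈ l, p.1 = x - 2 := by
          intro p hp
          have h1 : l.countP (fun p => decide (x - p.1 = 2)) = l.length := by
            rw [hl]; exact hx
          rw [List.countP_eq_length] at h1
          have h2 := h1 p hp
          simp only [decide_eq_true_eq] at h2
          rw [← h2]; ring
        rw [prodL_const (x - 2) l hall]
        obtain ⟨m, hb⟩ := t3_b ((l.map Prod.snd).sum)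
        exact ⟨m, by rw [conj_pow, hb]; group⟩
      · push Not at hx
        rw [prodL_eq]
        apply t3_psi
        intro x
        obtain ⟨l', hl', hs⟩ := sect_form l x
        rw [hs]
        apply ih (cnt x l) _ l' hl'
        have := cnt_le x l
        have := hx x
        omega
    intro l hl k
    by_cases hk : k = 0
    · rw [hk, rot_zero, mul_one]
      exact P0 l hl
    · -- the cube
      have hcube : (prodL l * rot k) ^ 3 =
          psi (fun x => sect l x * sect l (x - k) * sect l (x - (k + k))) := by
        have e1 : (prodL l * rot k) ^ 3 = prodL l * (rot k * prodL l * (rot k)⁻¹) *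
            (rot (k + k) * prodL l * (rot (k + k))⁻¹) * (rot k) ^ 3 := by
          rw [rot_add]
          simp only [pow_succ, pow_zero, one_mul]
          group
        rw [e1, rot_pow_three, mul_one, prodL_eq, rot_psi, rot_psi, ← map_mul, ← map_mul]
        rfl
      have hfin : T3 ((prodL l * rot k) ^ 3) := by
        rw [hcube]
        apply t3_psi
        intro x
        obtain ⟨l1, hl1, hs1⟩ := sect_form l x
        obtain ⟨l2, hl2, hs2⟩ := sect_form l (x - k)
        obtain ⟨l3, hl3, hs3⟩ := sect_form l (x - (k + k))
        have hform : sect l x * sect l (x - k) * sect l (x - (k + k)) =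
            prodL (l1 ++ shift ((l.map (cexp x)).sum) l2 ++
              shift ((l.map (cexp x)).sum + (l.map (cexp (x - k))).sum) l3) *
            rot ((l.map (cexp x)).sum + (l.map (cexp (x - k))).sum +
              (l.map (cexp (x - (k + k)))).sum) := by
          rw [hs1, hs2, hs3, prodL_append, prodL_append]
          set s1 := (l.map (cexp x)).sum
          set s2 := (l.map (cexp (x - k))).sum
          set s3 := (l.map (cexp (x - (k + k)))).sum
          rw [rot_add (s1 + s2) s3]
          have h2 := prodL_shift s1 l2
          have h3 := prodL_shift (s1 + s2) l3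
          calc prodL l1 * rot s1 * (prodL l2 * rot s2) * (prodL l3 * rot s3)
              = prodL l1 * (rot s1 * prodL l2) * rot s2 * (prodL l3 * rot s3) := by group
            _ = prodL l1 * (prodL (shift s1 l2) * rot s1) * rot s2 * (prodL l3 * rot s3) := by
                rw [h2]
            _ = prodL l1 * prodL (shift s1 l2) * (rot (s1 + s2) * prodL l3) * rot s3 := by
                rw [rot_add]; group
            _ = prodL l1 * prodL (shift s1 l2) * (prodL (shift (s1 + s2) l3) * rot (s1 + s2)) *
                rot s3 := by rw [h3]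
            _ = _ := by group
        have hsum0 : (l.map (cexp x)).sum + (l.map (cexp (x - k))).sum +
              (l.map (cexp (x - (k + k)))).sum = 0 := by
          have h0 := cexp_sum l
          have key : ∀ (f : ZMod 3 → ZMod 3) (x k : ZMod 3), k ≠ 0 →
              f x + f (x - k) + f (x - (k + k)) = f 0 + f 1 + f 2 := by
            decide
          exact (key (fun x => (l.map (cexp x)).sum) x k hk).trans h0
        have hlen : (l1 ++ shift ((l.map (cexp x)).sum) l2 ++
              shift ((l.map (cexp x)).sum + (l.map (cexp (x - k))).sum) l3).length = n := by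
          rw [List.length_append, List.length_append, shift_length, shift_length, hl1, hl2, hl3]
          have h0 := cnt_sum l
          rw [hl] at h0
          rw [← h0]
          have hall : ∀ x k : ZMod 3, k ≠ 0 → (x = 0 ∧ x - k = 1 ∧ x - (k + k) = 2) ∨
            (x = 0 ∧ x - k = 2 ∧ x - (k + k) = 1) ∨ (x = 1 ∧ x - k = 0 ∧ x - (k + k) = 2) ∨
            (x = 1 ∧ x - k = 2 ∧ x - (k + k) = 0) ∨ (x = 2 ∧ x - k = 0 ∧ x - (k + k) = 1) ∨
            (x = 2 ∧ x - k = 1 ∧ x - (k + k) = 0) := by decide
          rcases hall x k hk with h | h | h | h | h | h <;> rw [h.2.2, h.2.1, h.1] <;> omega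
        rw [hform, hsum0, rot_zero, mul_one]
        exact P0 _ hlen
      obtain ⟨m, h1⟩ := hfin
      exact ⟨m + 1, by rw [pow_succ', pow_mul]; exact h1⟩

theorem GS_three (g : Pool.Agent.Helper475.Torsion.P) (hg : g ∈ Pool.Agent.Helper475.Torsion.GS) :
    ∃ k : ℕ, g ^ (3 ^ k) = 1 := by
  obtain ⟨l, k, rfl⟩ := form_of_mem g hg
  exact t3_aux l.length l rfl k

end Pool.Agent.TH31.RD
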