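import Pool.Agent.H854R3.NE.FinRed

/-!
Minimal non-Engel varieties of associative rings are Cross varieties: the last step.

Assume that no subvariety of rings of characteristic `p` in which the ideal generated by the
`x ^ q - x` and the commutators has square zero is non-Engel. A ring of the variety with a pair
`x`, `y` all of whose iterated commutators are non-zero has a quotient every non-zero ideal of
which contains an iterated commutator. That quotient is prime, and it is either of prime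
characteristic, hence commutative, or torsion-free, and then the iterated commutators vanish
because the identities may be scaled by integers.
-/

set_option autoImplicit false

namespace Pool.Agent.TH31.NEfin

open Pool.Agent.H854R3.NE

variable {Q : Type} [NonUnitalRing Q]

/-- in a subring generated by an element of an ideal and one more element the commutators lie in
the ideal -/
theorem comm_mem {I : TwoSidedIdeal Q} {c y : Q} (hc : c ∈ I) (u v : sub2 c y) :
    (u : Q) * v - v * u ∈ I := by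
  have h1 : ∀ u : sub2 c y, (u : Q) * y - y * u ∈ I := by
    intro u
    refine (genBy_sub2 c y).induction (P := fun u : sub2 c y => (u : Q) * y - y * u ∈ I)
      ?_ ?_ ?_ ?_ ?_ ?_ u
    · exact I.sub_mem (I.mul_mem_right _ _ hc) (I.mul_mem_left _ _ hc)
    · change y * y - y * y ∈ I
      rw [sub_self]; exact I.zero_mem
    · change (0 : Q) * y - y * 0 ∈ I
      rw [zero_mul, mul_zero, sub_self]; exact I.zero_mem
    · intro a b ha hb
      have e : ((a + b : sub2 c y) : Q) * y - y * ((a + b : sub2 c y) : Q) =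
          ((a : Q) * y - y * a) + ((b : Q) * y - y * b) := by
        change ((a : Q) + b) * y - y * ((a : Q) + b) = _
        noncomm_ring
      rw [e]; exact I.add_mem ha hb
    · intro a ha
      have e : ((-a : sub2 c y) : Q) * y - y * ((-a : sub2 c y) : Q) = -((a : Q) * y - y * a) := by
        change (-(a : Q)) * y - y * (-(a : Q)) = _
        noncomm_ring
      rw [e]; exact I.neg_mem ha
    · intro a b ha hb
      have e : ((a * b : sub2 c y) : Q) * y - y * ((a * b : sub2 c y) : Q) =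
          (a : Q) * ((b : Q) * y - y * b) + ((a : Q) * y - y * a) * b := by
        change ((a : Q) * b) * y - y * ((a : Q) * b) = _
        noncomm_ring
      rw [e]; exact I.add_mem (I.mul_mem_left _ _ hb) (I.mul_mem_right _ _ ha)
  refine (genBy_sub2 c y).induction (P := fun v : sub2 c y => (u : Q) * v - v * u ∈ I)
      ?_ ?_ ?_ ?_ ?_ ?_ v
  · exact I.sub_mem (I.mul_mem_left _ _ hc) (I.mul_mem_right _ _ hc)
  · exact h1 u
  · change (u : Q) * 0 - 0 * u ∈ I
    rw [zero_mul, mul_zero, sub_self]; exact I.zero_mem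
  · intro a b ha hb
    have e : (u : Q) * ((a + b : sub2 c y) : Q) - ((a + b : sub2 c y) : Q) * u =
        ((u : Q) * a - a * u) + ((u : Q) * b - b * u) := by
      change (u : Q) * ((a : Q) + b) - ((a : Q) + b) * u = _
      noncomm_ring
    rw [e]; exact I.add_mem ha hb
  · intro a ha
    have e : (u : Q) * ((-a : sub2 c y) : Q) - ((-a : sub2 c y) : Q) * u =
        -((u : Q) * a - a * u) := by
      change (u : Q) * (-(a : Q)) - (-(a : Q)) * u = _
      noncomm_ring
    rw [e]; exact I.neg_mem ha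
  · intro a b ha hb
    have e : (u : Q) * ((a * b : sub2 c y) : Q) - ((a * b : sub2 c y) : Q) * u =
        (a : Q) * ((u : Q) * b - b * u) + ((u : Q) * a - a * u) * b := by
      change (u : Q) * ((a : Q) * b) - ((a : Q) * b) * u = _
      noncomm_ring
    rw [e]; exact I.add_mem (I.mul_mem_left _ _ hb) (I.mul_mem_right _ _ ha)

/-- an element of an ideal with square zero -/
theorem eng_zero_of_ideal {E : Set (RTerm × RTerm)} {n : ℕ} (hD : D2Engel E n) (hQ : Models E Q)
    {I : TwoSidedIdeal Q} (hI : ∀ u ∈ I, ∀ v ∈ I, u * v = 0) {c y : Q} (hc : c ∈ I) :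
    eng c y n = 0 := by
  have h1 : D2 (sub2 c y) := by
    constructor
    · rintro _ ⟨u, v, rfl⟩ _ ⟨w, z, rfl⟩
      apply Subtype.ext
      exact hI _ (comm_mem hc u v) _ (comm_mem hc w z)
    · rintro _ ⟨u, v, rfl⟩ _ ⟨w, z, rfl⟩ t
      apply Subtype.ext
      exact hI _ (I.mul_mem_right _ _ (comm_mem hc u v)) _ (comm_mem hc w z)
  have h2 := hD.2 (sub2 c y) (hQ.subring _) h1 (sx c y) (sy c y)
  have h3 := eng_map (NonUnitalSubringClass.subtype (sub2 c y)) (sx c y) (sy c y) n
  rw [h2, map_zero] at h3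
  exact h3.symm

/-- the same with an element which generates an ideal with square zero -/
theorem eng_zero_of_sq {E : Set (RTerm × RTerm)} {n : ℕ} (hD : D2Engel E n) (hQ : Models E Q)
    {c y : Q} (h1 : c * c = 0) (h2 : ∀ g, c * g * c = 0) : eng c y n = 0 := by
  apply eng_zero_of_ideal hD hQ (I := TwoSidedIdeal.span {c}) (c := c) (y := y)
  · intro u hu v hv
    refine span_mul_zero ?_ ?_ hu hv
    · rintro a rfl b rfl; exact h1
    · rintro a rfl b rfl g; exact h2 g
  · exact TwoSidedIdeal.subset_span rfl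

/-! ### Polynomial functions with values in a torsion-free ring -/

section poly

/-- the functions `m ↦ ∑ m ^ (k + s) c_k` -/
def IsPol (Q : Type) [NonUnitalRing Q] (s : ℕ) (f : ℕ → Q) : Prop :=
  ∃ (K : ℕ) (c : ℕ → Q), ∀ m, f m = ∑ k ∈ Finset.range K, (m ^ (k + s)) • c k

theorem IsPol.add {s : ℕ} {f g : ℕ → Q} (hf : IsPol Q s f) (hg : IsPol Q s g) :
    IsPol Q s (f + g) := by
  obtain ⟨K, c, hc⟩ := hf
  obtain ⟨L, d, hd⟩ := hg
  refine ⟨K + L, fun k => (if k < K then c k else 0) + (if k < L then d k else 0), fun m => ?_⟩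
  rw [Pi.add_apply, hc, hd]
  simp only [smul_add, Finset.sum_add_distrib]
  have aux : ∀ (K L : ℕ) (c : ℕ → Q), ∑ k ∈ Finset.range K, m ^ (k + s) • c k =
      ∑ k ∈ Finset.range (K + L), m ^ (k + s) • (if k < K then c k else 0) := by
    intro K L c
    rw [Finset.sum_range_add]
    have e1 : ∑ x ∈ Finset.range K, m ^ (x + s) • (if x < K then c x else 0) =
        ∑ k ∈ Finset.range K, m ^ (k + s) • c k := by
      refine Finset.sum_congr rfl fun k hk => ?_
      rw [if_pos (Finset.mem_range.1 hk)]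
    have e2 : ∑ x ∈ Finset.range L, m ^ (K + x + s) • (if K + x < K then c (K + x) else 0) = 0 := by
      refine Finset.sum_eq_zero fun k _ => ?_
      rw [if_neg (by omega), smul_zero]
    rw [e1, e2, add_zero]
  congr 1
  · exact aux K L c
  · rw [add_comm K L]
    exact aux L K d

theorem IsPol.neg {s : ℕ} {f : ℕ → Q} (hf : IsPol Q s f) : IsPol Q s (-f) := by
  obtain ⟨K, c, hc⟩ := hf
  refine ⟨K, fun k => - c k, fun m => ?_⟩
  rw [Pi.neg_apply, hc]
  simp only [smul_neg, Finset.sum_neg_distrib]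

theorem IsPol.zero {s : ℕ} : IsPol Q s 0 := ⟨0, fun _ => 0, fun m => by simp⟩

theorem isPol_mono {s : ℕ} (k : ℕ) (c : Q) : IsPol Q s (fun m => (m ^ (k + s)) • c) := by
  refine ⟨k + 1, fun j => if j = k then c else 0, fun m => ?_⟩
  rw [Finset.sum_eq_single k]
  · change m ^ (k + s) • c = m ^ (k + s) • (if k = k then c else 0)
    rw [if_pos rfl]
  · intro b _ hb
    change m ^ (b + s) • (if b = k then c else 0) = 0
    rw [if_neg hb, smul_zero]
  · intro h
    exact absurd (Finset.mem_range.2 (Nat.lt_succ_self k)) h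

theorem IsPol.sum {s : ℕ} {ι : Type} (t : Finset ι) (f : ι → ℕ → Q)
    (h : ∀ i ∈ t, IsPol Q s (f i)) : IsPol Q s (fun m => ∑ i ∈ t, f i m) := by
  classical
  induction t using Finset.induction_on with
  | empty =>
    have h2 : (fun m => ∑ i ∈ (∅ : Finset ι), f i m) = 0 := by
      funext m
      rw [Finset.sum_empty]; rfl
    rw [h2]; exact IsPol.zero
  | insert a t ha ih =>
    have h1 := (h a (Finset.mem_insert_self _ _)).add
      (ih (fun i hi => h i (Finset.mem_insert_of_mem hi)))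
    have h2 : (fun m => ∑ i ∈ insert a t, f i m) = f a + fun m => ∑ i ∈ t, f i m := by
      funext m
      rw [Finset.sum_insert ha]; rfl
    rw [h2]; exact h1

theorem IsPol.mul {s t : ℕ} {f g : ℕ → Q} (hf : IsPol Q s f) (hg : IsPol Q t g) :
    IsPol Q (s + t) (f * g) := by
  obtain ⟨K, c, hc⟩ := hf
  obtain ⟨L, d, hd⟩ := hg
  have h1 : f * g = fun m => ∑ p ∈ Finset.range K ×ˢ Finset.range L,
      (m ^ ((p.1 + p.2) + (s + t))) • (c p.1 * d p.2) := by
    funext m
    rw [Pi.mul_apply, hc, hd, Finset.sum_mul_sum, Finset.sum_product]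
    refine Finset.sum_congr rfl fun i _ => Finset.sum_congr rfl fun j _ => ?_
    rw [smul_mul_assoc, mul_smul_comm, smul_smul, ← pow_add]
    congr 2
    ring
  rw [h1]
  exact IsPol.sum _ (fun (p : ℕ × ℕ) m => (m ^ ((p.1 + p.2) + (s + t))) • (c p.1 * d p.2))
    (fun p _ => isPol_mono (p.1 + p.2) (c p.1 * d p.2))

theorem IsPol.le {s t : ℕ} (h : t ≤ s) {f : ℕ → Q} (hf : IsPol Q s f) : IsPol Q t f := by
  obtain ⟨K, c, hc⟩ := hf
  have h1 : f = fun m => ∑ k ∈ Finset.range K, (m ^ ((k + (s - t)) + t)) • c k := by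
    funext m
    rw [hc]
    refine Finset.sum_congr rfl fun k _ => ?_
    congr 2
    omega
  rw [h1]
  exact IsPol.sum _ (fun k m => (m ^ ((k + (s - t)) + t)) • c k) (fun k _ => isPol_mono _ (c k))

/-- the ring of polynomial functions -/
def PolRing (Q : Type) [NonUnitalRing Q] : NonUnitalSubring (ℕ → Q) where
  carrier := {f | IsPol Q 0 f}
  add_mem' := fun h1 h2 => h1.add h2
  zero_mem' := IsPol.zero
  neg_mem' := fun h => h.neg
  mul_mem' := fun h1 h2 => h1.mul h2

/-- the ideal of the polynomial functions divisible by `m ^ 2` -/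
def PolIdeal (Q : Type) [NonUnitalRing Q] : TwoSidedIdeal (PolRing Q) :=
  TwoSidedIdeal.mk' {f | IsPol Q 2 f.1} IsPol.zero (fun h1 h2 => h1.add h2) (fun h => h.neg)
    (by
      intro x y hy
      have h := IsPol.mul x.2 hy
      rwa [zero_add] at h)
    (by
      intro x y hx
      have h := IsPol.mul hx y.2
      rwa [add_zero] at h)

theorem mem_PolIdeal (f : PolRing Q) : f ∈ PolIdeal Q ↔ IsPol Q 2 f.1 :=
  TwoSidedIdeal.mem_mk' _ _ _ _ _ _ f

theorem vander (htf : ∀ (n : ℕ) (z : Q), n ≠ 0 → n • z = 0 → z = 0) (K : ℕ) (c : ℕ → Q)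
    (h : ∀ m : ℕ, ∑ k ∈ Finset.range K, (m ^ k) • c k = 0) : ∀ k < K, c k = 0 := by
  have htf' : ∀ (n : ℤ) (z : Q), n ≠ 0 → n • z = 0 → z = 0 := by
    intro n z hn hz
    apply htf n.natAbs z (by omega)
    rcases Int.natAbs_eq n with h1 | h1
    · rw [h1, natCast_zsmul] at hz; exact hz
    · rw [h1, neg_smul, natCast_zsmul, neg_eq_zero] at hz; exact hz
  intro k hk
  let M : Matrix (Fin K) (Fin K) ℤ := Matrix.vandermonde (fun i : Fin K => ((i : ℕ) : ℤ))
  have hdet : M.det ≠ 0 := by
    rw [Matrix.det_vandermonde_ne_zero_iff]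
    intro i j hij
    have hij' : ((i : ℕ) : ℤ) = ((j : ℕ) : ℤ) := hij
    exact Fin.ext (by exact_mod_cast hij')
  apply htf' M.det _ hdet
  have h1 : ∀ i : Fin K, ∑ j : Fin K, M i j • c j = 0 := by
    intro i
    have h2 := h i
    rw [← Fin.sum_univ_eq_sum_range (fun k => ((i : ℕ) ^ k) • c k) K] at h2
    rw [← h2]
    refine Finset.sum_congr rfl fun j _ => ?_
    change (((i : ℕ) : ℤ) ^ (j : ℕ)) • c j = _
    rw [← Nat.cast_pow, natCast_zsmul]
  have h3 : ∑ i : Fin K, M.adjugate ⟨k, hk⟩ i • ∑ j : Fin K, M i j • c j = 0 := by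
    refine Finset.sum_eq_zero fun i _ => ?_
    rw [h1, smul_zero]
  rw [← h3]
  have h4 : ∀ j : Fin K, (∑ i : Fin K, M.adjugate ⟨k, hk⟩ i * M i j) =
      if (⟨k, hk⟩ : Fin K) = j then M.det else 0 := by
    intro j
    have h5 := congrFun (congrFun M.adjugate_mul ⟨k, hk⟩) j
    rw [Matrix.mul_apply] at h5
    rw [h5, Matrix.smul_apply, Matrix.one_apply, smul_eq_mul]
    split_ifs <;> simp
  calc M.det • c k = ∑ j : Fin K, (if (⟨k, hk⟩ : Fin K) = j then M.det else 0) • c j := by
        rw [Finset.sum_eq_single (⟨k, hk⟩ : Fin K)]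
        · rw [if_pos rfl]
        · intro b _ hb
          rw [if_neg (Ne.symm hb), zero_smul]
        · intro h6; exact absurd (Finset.mem_univ _) h6
    _ = ∑ j : Fin K, (∑ i : Fin K, M.adjugate ⟨k, hk⟩ i * M i j) • c j := by
        refine Finset.sum_congr rfl fun j _ => ?_
        rw [h4]
    _ = ∑ i : Fin K, M.adjugate ⟨k, hk⟩ i • ∑ j : Fin K, M i j • c j := by
        simp only [Finset.sum_smul, Finset.smul_sum, smul_smul]
        rw [Finset.sum_comm]

/-- the linear part -/
theorem lin_part (htf : ∀ (n : ℕ) (z : Q), n ≠ 0 → n • z = 0 → z = 0) {e : Q}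
    (h : IsPol Q 2 (fun m => m • e)) : e = 0 := by
  obtain ⟨K, c, hc⟩ := h
  let d : ℕ → Q := fun k => match k with
    | 0 => 0
    | 1 => e
    | k + 2 => - c k
  have h1 : ∀ m : ℕ, ∑ k ∈ Finset.range (K + 2), (m ^ k) • d k = 0 := by
    intro m
    rw [Finset.sum_range_succ', Finset.sum_range_succ']
    have h2 : ∑ k ∈ Finset.range K, (m ^ (k + 1 + 1)) • d (k + 1 + 1) = - (m • e) := by
      have h3 := hc m
      simp only at h3
      rw [h3, ← Finset.sum_neg_distrib]
      refine Finset.sum_congr rfl fun k _ => ?_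
      change (m ^ (k + 2)) • (- c k) = _
      rw [smul_neg]
    rw [h2]
    change -(m • e) + (m ^ (0 + 1)) • e + (m ^ 0) • (0 : Q) = 0
    rw [zero_add, pow_one, smul_zero, add_zero, neg_add_cancel]
  exact vander htf (K + 2) d h1 1 (by omega)

/-- torsion-free rings of the variety -/
theorem torsionfree {E : Set (RTerm × RTerm)} {n : ℕ} (hD : D2Engel E n) (hQ : Models E Q)
    (htf : ∀ (n : ℕ) (z : Q), n ≠ 0 → n • z = 0 → z = 0) (x y : Q) : eng x y n = 0 := by
  have hP : Models E (PolRing Q) := (Models.pi (fun _ : ℕ => Q) (fun _ => hQ)).subring _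
  obtain ⟨T, inst, φ, hφ, hker⟩ := exists_quot (PolIdeal Q)
  have hT : Models E T := hP.of_surjective φ hφ
  have hX : IsPol Q 1 (fun m : ℕ => m • x) := by
    have h := isPol_mono (s := 1) 0 x
    simpa using h
  have hY : IsPol Q 0 (fun _ : ℕ => y) := by
    have h := isPol_mono (s := 0) 0 y
    simpa using h
  let X : PolRing Q := ⟨fun m : ℕ => m • x, hX.le (Nat.zero_le 1)⟩
  let Y : PolRing Q := ⟨fun _ : ℕ => y, hY⟩
  have h1 : φ X * φ X = 0 := by
    rw [← map_mul, hker, mem_PolIdeal]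
    exact hX.mul hX
  have h2 : ∀ g, φ X * g * φ X = 0 := by
    intro g
    obtain ⟨g, rfl⟩ := hφ g
    rw [← map_mul, ← map_mul, hker, mem_PolIdeal]
    have := (hX.mul g.2).mul hX
    exact this
  have h3 := eng_zero_of_sq hD hT (y := φ Y) h1 h2
  rw [← eng_map, hker, mem_PolIdeal] at h3
  apply lin_part htf
  have h4 : (eng X Y n).1 = fun m : ℕ => m • eng x y n := by
    funext m
    have h5 := eng_map ((Pi.evalNonUnitalRingHom (fun _ : ℕ => Q) m).comp
      (NonUnitalSubringClass.subtype (PolRing Q))) X Y n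
    change (eng X Y n).1 m = eng (m • x) y n at h5
    rw [h5, ← natCast_zsmul, eng_zsmul_left, natCast_zsmul]
  rwa [h4] at h3

end poly

/-! ### The end of the proof -/

theorem isEngel_of_forall_W {E : Set (RTerm × RTerm)}
    (hW : ∀ p k : ℕ, p.Prime → 1 ≤ k → IsEngel (E ∪ WId p (p ^ k))) : IsEngel E := by
  obtain ⟨n, hD⟩ := exists_D2Engel hW
  by_contra hcon
  obtain ⟨A, _, x0, y0, hA, hne⟩ := exists_of_not_engel hcon
  obtain ⟨I, hI, hmax⟩ := exists_max_ideal (fun I : TwoSidedIdeal A => ∀ k, eng x0 y0 k ∉ I)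
    (by intro k; rw [TwoSidedIdeal.mem_bot]; exact hne k)
    (by
      intro c _ _ hP U hU k hk
      obtain ⟨I, hI, h⟩ := (hU _).1 hk
      exact hP I hI k h)
  obtain ⟨Q, inst, φ, hφ, hker⟩ := exists_quot I
  have hQ : Models E Q := hA.of_surjective φ hφ
  set x := φ x0 with hx
  set y := φ y0 with hy
  have hnz : ∀ k, eng x y k ≠ 0 := by
    intro k h
    rw [hx, hy, ← eng_map, hker] at h
    exact hI k h
  -- non-zero ideals contain iterated commutators
  have hall : ∀ J : TwoSidedIdeal Q, J ≠ ⊥ → ∃ k, eng x y k ∈ J := by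
    intro J hJ
    by_contra hcon2
    push Not at hcon2
    let J' : TwoSidedIdeal A := TwoSidedIdeal.mk' {z | φ z ∈ J}
      (by change φ 0 ∈ J; rw [map_zero]; exact J.zero_mem)
      (by intro x y hx hy; change φ (x + y) ∈ J; rw [map_add]; exact J.add_mem hx hy)
      (by intro x hx; change φ (-x) ∈ J; rw [map_neg]; exact J.neg_mem hx)
      (by intro x y hy; change φ (x * y) ∈ J; rw [map_mul]; exact J.mul_mem_left _ _ hy)
      (by intro x y hx; change φ (x * y) ∈ J; rw [map_mul]; exact J.mul_mem_right _ _ hx)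
    have hJ' : ∀ z, z ∈ J' ↔ φ z ∈ J := fun z => TwoSidedIdeal.mem_mk' _ _ _ _ _ _ z
    have h1 : J' = I := by
      apply hmax J'
      · intro k
        rw [hJ', eng_map]
        exact hcon2 k
      · intro z hz
        rw [hJ', (hker z).2 hz]
        exact J.zero_mem
    obtain ⟨w, hw, hw0⟩ := exists_mem_ne hJ
    obtain ⟨z, rfl⟩ := hφ w
    apply hw0
    rw [hker, ← h1, hJ']
    exact hw
  -- no ideals with square zero
  have hsemi : ∀ J : TwoSidedIdeal Q, (∀ u ∈ J, ∀ v ∈ J, u * v = 0) → J = ⊥ := by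
    intro J hJ
    by_contra hne2
    obtain ⟨k, hk⟩ := hall J hne2
    have h1 := eng_zero_of_ideal hD hQ hJ (y := y) hk
    rw [← eng_add] at h1
    exact hnz _ h1
  have hmono : ∀ (J : TwoSidedIdeal Q) (k l : ℕ), eng x y k ∈ J → eng x y (k + l) ∈ J := by
    intro J k l hk
    induction l with
    | zero => exact hk
    | succ l ih =>
      change eng x y (k + l) * y - y * eng x y (k + l) ∈ J
      exact J.sub_mem (J.mul_mem_right _ _ ih) (J.mul_mem_left _ _ ih)
  -- the ring is prime
  have hprime : PrimeR Q := by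
    intro a b hab
    by_contra hcon2
    push Not at hcon2
    obtain ⟨ha, hb⟩ := hcon2
    let K1 : TwoSidedIdeal Q := TwoSidedIdeal.mk' {z | ∀ g, z * g * b = 0}
      (by intro g; rw [zero_mul, zero_mul])
      (by intro x y hx hy g; rw [add_mul, add_mul, hx, hy, add_zero])
      (by intro x hx g; rw [neg_mul, neg_mul, hx, neg_zero])
      (by intro x y hy g; rw [mul_assoc x y g, mul_assoc x, hy, mul_zero])
      (by intro x y hx g; rw [mul_assoc x y g]; exact hx (y * g))
    have hK1 : ∀ z, z ∈ K1 ↔ ∀ g, z * g * b = 0 := fun z => TwoSidedIdeal.mem_mk' _ _ _ _ _ _ z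
    let K2 : TwoSidedIdeal Q := TwoSidedIdeal.mk' {z | ∀ w ∈ K1, ∀ g, w * g * z = 0}
      (by intro w _ g; rw [mul_zero])
      (by intro x y hx hy w hw g; rw [mul_add, hx w hw, hy w hw, add_zero])
      (by intro x hx w hw g; rw [mul_neg, hx w hw, neg_zero])
      (by intro x y hy w hw g; rw [← mul_assoc, mul_assoc w g x]; exact hy w hw (g * x))
      (by intro x y hx w hw g; rw [← mul_assoc, hx w hw, zero_mul])
    have hK2 : ∀ z, z ∈ K2 ↔ ∀ w ∈ K1, ∀ g, w * g * z = 0 :=
      fun z => TwoSidedIdeal.mem_mk' _ _ _ _ _ _ z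
    have haK : a ∈ K1 := (hK1 a).2 hab
    have hbK : b ∈ K2 := (hK2 b).2 (fun w hw g => (hK1 w).1 hw g)
    obtain ⟨i, hi⟩ := hall K1 (ne_bot_of_mem haK ha)
    obtain ⟨j, hj⟩ := hall K2 (ne_bot_of_mem hbK hb)
    have hi' := hmono K1 i j hi
    have hj' := hmono K2 j i hj
    rw [add_comm j i] at hj'
    set c := eng x y (i + j) with hc
    -- the intersection
    let J : TwoSidedIdeal Q := TwoSidedIdeal.mk' {z | z ∈ K1 ∧ z ∈ K2}
      ⟨K1.zero_mem, K2.zero_mem⟩
      (fun h1 h2 => ⟨K1.add_mem h1.1 h2.1, K2.add_mem h1.2 h2.2⟩)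
      (fun h1 => ⟨K1.neg_mem h1.1, K2.neg_mem h1.2⟩)
      (fun h1 => ⟨K1.mul_mem_left _ _ h1.1, K2.mul_mem_left _ _ h1.2⟩)
      (fun h1 => ⟨K1.mul_mem_right _ _ h1.1, K2.mul_mem_right _ _ h1.2⟩)
    have hJm : ∀ z, z ∈ J ↔ z ∈ K1 ∧ z ∈ K2 := fun z => TwoSidedIdeal.mem_mk' _ _ _ _ _ _ z
    have h3 : ∀ u ∈ J, ∀ v ∈ J, ∀ g, u * g * v = 0 := by
      intro u hu v hv g
      exact (hK2 v).1 ((hJm v).1 hv).2 u ((hJm u).1 hu).1 g
    have h4 : TwoSidedIdeal.span {z | ∃ u ∈ J, ∃ v ∈ J, z = u * v} = ⊥ := by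
      apply hsemi
      intro u hu v hv
      refine span_mul_zero ?_ ?_ hu hv
      · rintro _ ⟨u, hu, v, hv, rfl⟩ _ ⟨w, hw, z, hz, rfl⟩
        have : u * v * (w * z) = u * (v * w) * z := by noncomm_ring
        rw [this, h3 u hu z hz]
      · rintro _ ⟨u, hu, v, hv, rfl⟩ _ ⟨w, hw, z, hz, rfl⟩ g
        have : u * v * g * (w * z) = u * (v * g * w) * z := by noncomm_ring
        rw [this, h3 u hu z hz]
    have h5 : ∀ u ∈ J, ∀ v ∈ J, u * v = 0 := by
      intro u hu v hv
      have h6 : u * v ∈ TwoSidedIdeal.span {z | ∃ u ∈ J, ∃ v ∈ J, z = u * v} :=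
        TwoSidedIdeal.subset_span ⟨u, hu, v, hv, rfl⟩
      rw [h4] at h6
      exact (TwoSidedIdeal.mem_bot Q).1 h6
    have h6 : J = ⊥ := hsemi J h5
    have h7 : c ∈ J := (hJm c).2 ⟨hi', hj'⟩
    rw [h6] at h7
    exact hnz _ ((TwoSidedIdeal.mem_bot Q).1 h7)
  by_cases hchar : ∃ p : ℕ, p.Prime ∧ ∃ z : Q, z ≠ 0 ∧ p • z = 0
  · obtain ⟨p, hp, z, hz, hpz⟩ := hchar
    have : Fact p.Prime := ⟨hp⟩
    have hpQ : ∀ w : Q, p • w = 0 := by
      intro w
      rcases hprime (p • w) z (fun r => by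
        rw [smul_mul_assoc, smul_mul_assoc, ← mul_smul_comm, hpz, mul_zero]) with h | h
      · exact h
      · exact absurd h hz
    have h1 := prime_comm hD (hW p 1 hp le_rfl) hQ hpQ hprime x y
    apply hnz 1
    change x * y - y * x = 0
    rw [h1, sub_self]
  · push Not at hchar
    have htf : ∀ (n : ℕ) (z : Q), n ≠ 0 → n • z = 0 → z = 0 := by
      intro n
      induction n using Nat.strong_induction_on with
      | _ n ih =>
        intro z hn hz
        by_cases h1 : n = 1
        · rw [h1, one_smul] at hz; exact hz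
        · obtain ⟨p, hp, m, rfl⟩ := Nat.exists_prime_and_dvd h1
          have hm0 : m ≠ 0 := by rintro rfl; exact hn (mul_zero p)
          have hlt : m < p * m := by
            have := hp.two_le
            nlinarith [Nat.pos_of_ne_zero hm0]
          apply ih m hlt z hm0
          by_contra hne3
          exact hchar p hp (m • z) hne3 (by rw [smul_smul]; exact hz)
    exact hnz n (torsionfree hD hQ htf x y)

/-- Every minimal non-Engel variety of associative rings is a Cross variety. -/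
theorem main {E : Set (RTerm × RTerm)} (h : MinimalNonEngel E) : IsCross E := by
  by_cases hW : ∀ p k : ℕ, p.Prime → 1 ≤ k → IsEngel (E ∪ WId p (p ^ k))
  · exact absurd (isEngel_of_forall_W hW) h.1
  · push Not at hW
    obtain ⟨p, k, hp, hk, hne⟩ := hW
    have : Fact p.Prime := ⟨hp⟩
    apply cross_of_sub (p := p) (k := k) hk
    have h1 : SubvarietyOf E (E ∪ WId p (p ^ k)) := by
      by_contra h2
      exact hne (h.2 _ (fun R _ hR e he => hR e (Or.inl he)) h2)
    intro R _ hR e he
    exact h1 R hR e (Or.inr he)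

end Pool.Agent.TH31.NEfin
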