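import Pool.Agent.TH64.Fill

/-!
# Points almost between two points of a line are near the line (helper31, job 1067 of helper63)
-/

set_option autoImplicit false

namespace Pool.Agent.TH31.RD

open Pool.Agent.TH64

theorem len_pow_le' {G : Type*} [Group G] (H : Hyp G) (x : G) (k : ℕ) :
    H.len (x ^ k) ≤ k * H.len x := by
  induction k with
  | zero => simp [H.len_one]
  | succ k ih =>
    rw [pow_succ, Nat.succ_mul]
    exact (H.len_mul _ _).trans (by omega)

theorem len_small {G : Type*} [Group G] (H : Hyp G) (x : G) (k : ℤ) (m : ℕ) (h : |k| ≤ m) :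
    H.len (x ^ k) ≤ m * H.len x := by
  rw [PAx.len_zpow]
  refine (len_pow_le' H x _).trans (Nat.mul_le_mul_right _ ?_)
  rw [Int.abs_eq_natAbs] at h
  exact_mod_cast h

theorem near_line {G : Type*} [Group G] {H : Hyp G} {x : G} (A : PAx H x) (e : ℕ) : ∃ F : ℕ,
    ∀ (u m : G) (i j : ℤ), H.d (u * x ^ i) m + H.d m (u * x ^ j) ≤
      H.d (u * x ^ i) (u * x ^ j) + e → H.d m (A.pr u m) ≤ F := by
  refine ⟨e + 2 * A.c + 2 * (A.c * H.len x), ?_⟩
  intro u m i j h
  have prl : ∀ i : ℤ, A.pr u (u * x ^ i) = u * x ^ i := by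
    intro i
    unfold PAx.pr
    rw [inv_mul_cancel_left, A.κ_zpow]
  have key : ∀ i : ℤ, H.d m (A.pr u m) + H.len (x ^ A.s u (u * x ^ i) m) ≤
      H.d (u * x ^ i) m + A.c + A.c * H.len x := by
    intro i
    by_cases hc : (A.c : ℤ) < |A.s u (u * x ^ i) m|
    · have h1 := A.proj_pr u (u * x ^ i) m hc
      omega
    · push Not at hc
      have h1 := A.pr_near u m i
      have h2 := len_small H x _ _ hc
      rw [H.d_comm m (u * x ^ i)] at h1
      omega
  have k1 := key i
  have k2 := key j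
  have hd := A.d_pr_pr u (u * x ^ i) (u * x ^ j)
  rw [prl, prl, ← A.s_add u (u * x ^ i) m (u * x ^ j)] at hd
  have h3 := PAx.sub_z (H := H) (x := x) (A.s u (u * x ^ i) m) (A.s u m (u * x ^ j))
  have h4 : H.len (x ^ A.s u m (u * x ^ j)) = H.len (x ^ A.s u (u * x ^ j) m) := by
    rw [A.s_symm u (u * x ^ j) m, zpow_neg, H.len_inv]
  rw [H.d_comm m (u * x ^ j)] at h
  omega

end Pool.Agent.TH31.RD
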