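import Pool.Agent.TH64.Fill

/-!
# Star lemma: Greendlinger and Behrstock (helper31, job 1066 of helper63)
-/

set_option autoImplicit false

namespace Pool.Agent.TH31.RD

open Pool.Agent.TH64

theorem star {G : Type*} [Group G] {H : Hyp G} {x : G} (A : Ax H x) (c1 : ℕ) : ∃ N0 : ℕ,
    ∀ N ≥ N0, ∀ (M : Subgroup G), Fill A N M → ∀ p q p3 n u : G, n ∈ M →
      (∀ w, 4 * |A.s w p q| ≤ 3 * N + c1) → (∀ w, 4 * |A.s w p3 (n * q)| ≤ 3 * N + c1) →
      A.c < |A.s u p q| → A.c < |A.s u p3 (n * q)| → |A.s u q (n * q)| + 12 * A.th < N →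
      |A.s u q (n * q)| ≤ 2 * A.th := by
  refine ⟨c1 + 8 * (A.c * (3 * A.c + A.c) + A.c) + 4 * A.c + 52 * A.th + 1, ?_⟩
  intro N hN M hF p q p3 n u hn hpq hpq' h1 h2 h3
  by_cases hn1 : n = 1
  · rw [hn1, one_mul, A.s_self]
    simp
  obtain ⟨v, hv⟩ := hF.gr n hn hn1 q
  by_cases hux : u⁻¹ * v ∈ Subgroup.zpowers x
  · exfalso
    obtain ⟨j, hj⟩ := hux
    have hj' : v = u * x ^ j := by
      have : x ^ j = u⁻¹ * v := hj
      rw [this, mul_inv_cancel_left]
    rw [hj', A.s_base] at hv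
    omega
  have hux' : v⁻¹ * u ∉ Subgroup.zpowers x := by
    intro h
    apply hux
    have := (Subgroup.zpowers x).inv_mem h
    rwa [mul_inv_rev, inv_inv] at this
  have hN' : ((c1 + 8 * (A.c * (3 * A.c + A.c) + A.c) + 4 * A.c + 52 * A.th + 1 : ℕ) : ℤ) ≤ N := by
    exact_mod_cast hN
  push_cast at hN'
  -- the projections
  have b1 := A.pr_between' u p q h1
  have b2 := A.pr_between' u p3 (n * q) h2
  have m1 := A.mono v b1
  have m2 := A.mono v b2
  have h4 := hpq v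
  have h5 := hpq' v
  have o1 : |A.s v (A.pr u q) (A.pr u (n * q))| ≤ A.c := by
    unfold PAx.pr
    exact A.ov_s hux' _ _
  have e1 := A.s_add v q (A.pr u q) (n * q)
  have e2 := A.s_add v (A.pr u q) (A.pr u (n * q)) (n * q)
  have sy : A.s v (A.pr u q) q = - A.s v q (A.pr u q) := A.s_symm v q (A.pr u q)
  have sy2 : A.s v (n * q) (A.pr u (n * q)) = - A.s v (A.pr u (n * q)) (n * q) :=
    A.s_symm v _ _
  generalize (A.c : ℤ) * (3 * A.c + A.c) = K at *
  have key1 : (A.th : ℤ) < |A.s v q (A.pr u q)| := by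
    rw [sy, abs_neg] at m1
    have p1 := abs_nonneg (A.s v p (A.pr u q))
    have p2 := abs_nonneg (A.s v p3 (A.pr u (n * q)))
    cases abs_cases (A.s v q (A.pr u q)) <;> cases abs_cases (A.s v (A.pr u q) (A.pr u (n * q))) <;>
      cases abs_cases (A.s v (A.pr u (n * q)) (n * q)) <;> cases abs_cases (A.s v q (n * q)) <;>
      omega
  have key2 : (A.th : ℤ) < |A.s v (n * q) (A.pr u (n * q))| := by
    rw [sy2, abs_neg]
    rw [sy, abs_neg] at m1
    have p1 := abs_nonneg (A.s v p (A.pr u q))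
    have p2 := abs_nonneg (A.s v p3 (A.pr u (n * q)))
    cases abs_cases (A.s v q (A.pr u q)) <;> cases abs_cases (A.s v (A.pr u q) (A.pr u (n * q))) <;>
      cases abs_cases (A.s v (A.pr u (n * q)) (n * q)) <;> cases abs_cases (A.s v q (n * q)) <;>
      omega
  have c1' : |A.s u q (v * x ^ (0 : ℤ))| ≤ A.th := by
    rcases A.beh hux q with h | h
    · exact h 0
    · exact absurd (h (A.κ (u⁻¹ * q))) (not_le.2 key1)
  have c2' : |A.s u (n * q) (v * x ^ (0 : ℤ))| ≤ A.th := by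
    rcases A.beh hux (n * q) with h | h
    · exact h 0
    · exact absurd (h (A.κ (u⁻¹ * (n * q)))) (not_le.2 key2)
  have e3 := A.s_add u q (n * q) (v * x ^ (0 : ℤ))
  cases abs_cases (A.s u q (v * x ^ (0 : ℤ))) <;>
    cases abs_cases (A.s u (n * q) (v * x ^ (0 : ℤ))) <;>
    cases abs_cases (A.s u q (n * q)) <;> omega

end Pool.Agent.TH31.RD
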