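import Pool.Agent.TH64.Ost

/-!
# Powers of `x` do not shorten in a large power quotient (helper31, job 1065 of helper63)
-/

set_option autoImplicit false

namespace Pool.Agent.TH31.RD

open Pool.Agent.TH64

theorem len_zabs {G : Type*} [Group G] (H : Hyp G) (x : G) (k : ℤ) :
    H.len (x ^ |k|) = H.len (x ^ k) := by
  rw [PAx.len_zpow |k|, PAx.len_zpow k, Int.natAbs_abs]

theorem xpow_len {G : Type*} [Group G] {H : Hyp G} {x : G} (A : Ax H x) : ∃ C N0 : ℕ, ∀ N ≥ N0,
    ∀ (M : Subgroup G) [M.Normal], Fill A N M → ∀ j : ℤ, 2 * |j| ≤ N →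
      H.len (x ^ j) ≤ H.qlen M ((x ^ j : G) : G ⧸ M) + C := by
  obtain ⟨c', N1, hp⟩ := pmin A
  refine ⟨2 * A.c + 12 * A.th * H.len x, N1 + (4 * A.c + c' + 24 * A.th + 2), ?_⟩
  intro N hN M hM hF j hj
  obtain ⟨y, hy, hyl⟩ := H.qlen_rep M ((x ^ j : G) : G ⧸ M)
  obtain ⟨m, hm, hym⟩ := Hyp.exists_of_coe_eq M hy.symm
  rw [← hyl]
  by_cases hm1 : m = 1
  · rw [hym, hm1, one_mul]
    omega
  have hN' : ((N1 + (4 * A.c + c' + 24 * A.th + 2) : ℕ) : ℤ) ≤ N := by exact_mod_cast hN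
  push_cast at hN'
  obtain ⟨u, hu⟩ := hF.gr m hm hm1 (x ^ j)
  rw [← hym] at hu
  have hmin : ∀ m' ∈ M, H.d 1 y ≤ H.d 1 (m' * y) := by
    intro m' hm'
    rw [H.d_one, H.d_one, hyl, ← hy, ← Hyp.coe_mul_left M hm' y]
    exact H.qlen_le M _
  have h1 := hp N (by omega) M hF 1 y hmin u
  have h2 := A.s_add u (x ^ j) 1 y
  by_cases hux : u ∈ Subgroup.zpowers x
  · obtain ⟨i, hi⟩ := hux
    have hi' : x ^ i = u := hi
    have hb : ∀ p q : G, A.s u p q = A.s 1 p q := by
      intro p q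
      have := A.s_base 1 i p q
      rwa [one_mul, hi'] at this
    rw [hb, hb] at h2
    rw [hb] at h1 h2 hu
    have h3 : A.s 1 (x ^ j) 1 = - j := by
      unfold PAx.s
      rw [inv_one, one_mul, one_mul, A.κ_zpow, A.κ_one, zero_sub]
    rw [h3] at h2
    have h4 : |j| ≤ |A.s 1 1 y| + 12 * A.th := by
      cases abs_cases j <;> cases abs_cases (A.s 1 1 y) <;> cases abs_cases (A.s 1 (x ^ j) y) <;>
        omega
    have h5 : (A.c : ℤ) < |A.s 1 1 y| := by
      cases abs_cases j <;> cases abs_cases (A.s 1 1 y) <;> cases abs_cases (A.s 1 (x ^ j) y) <;>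
        omega
    have h6 := A.proj_pr 1 1 y h5
    rw [H.d_one y] at h6
    by_cases h7 : |j| ≤ |A.s 1 1 y|
    · have := A.len_mono h7
      omega
    · push Not at h7
      have h8 := PAx.sub_z (H := H) (x := x) |A.s 1 1 y| (|j| - |A.s 1 1 y|)
      rw [add_sub_cancel, len_zabs, len_zabs] at h8
      have h9 := Close.len_zpow_le' H x (|j| - |A.s 1 1 y|) (12 * A.th) (by
        push_cast
        rw [abs_of_nonneg (by omega)]
        omega)
      omega
  · exfalso
    have h3 : u⁻¹ * 1 ∉ Subgroup.zpowers x := by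
      intro h
      apply hux
      rw [mul_one] at h
      have := (Subgroup.zpowers x).inv_mem h
      rwa [inv_inv] at this
    have h4 := A.ov_s h3 j 0
    rw [zpow_zero, mul_one, one_mul] at h4
    cases abs_cases (A.s u (x ^ j) 1) <;> cases abs_cases (A.s u 1 y) <;>
      cases abs_cases (A.s u (x ^ j) y) <;> omega

end Pool.Agent.TH31.RD
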